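import Pool.Agent.PST.StmtsGS
import Pool.Agent.Helper44_PSS.CLN

/-!
# Squad PST, row CLP (helper97): from the clean hypotheses to the class `KP`
-/

set_option autoImplicit false

open scoped BigOperators

noncomputable section

namespace Pool.Agent.PST.H97

open Pool.Agent.PST
open Pool.Agent.Helper51_AWC Pool.Agent.Helper79_WRA Pool.Agent.PP Pool.Agent.PP.KF
open Pool.Agent.PP.K9 Pool.Agent.PP.K9.H97 Pool.Agent.PP.H75 Pool.Agent.PP.T3 Pool.Agent.PP.T2
open Pool.Agent.PP.TB (Zd Star iz cz)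
open Pool.Agent.PFD (Ei)
open Pool.Agent.PSS

attribute [local instance] Ideal.Quotient.field

theorem ne_bot_of {G : Type} [Group G] {U V : Subgroup G} (hUV : U ≤ V) (hU : U ≠ ⊥) :
    U.subgroupOf V ≠ ⊥ := by
  intro h1
  apply hU
  rw [eq_bot_iff]
  intro u hu
  have h6 : (⟨u, hUV hu⟩ : V) ∈ U.subgroupOf V := Subgroup.mem_subgroupOf.2 hu
  rw [h1, Subgroup.mem_bot] at h6
  rw [Subgroup.mem_bot]
  exact congrArg Subtype.val h6

theorem clp (msu : MsuStmt) (edf : PFD.EdfStmt) (lke : PFD.LkeStmt) (inx : K9.InxStmt) :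
    ClpStmt := by
  intro ℓ hℓ M _ hM G _ _ e V γ hL hV W U h
  have hab : ∀ a b : V, a * b = b * a := fun a b => Subtype.ext (hL.ab a a.2 b b.2)
  -- the order of `Ei`
  have hcop : ¬ ℓ ∣ Nat.card (Ei V γ) := by
    have h1 := (lke ℓ (FF M) G e V γ hL).1
    rw [← h1]
    have h2 := inx ℓ M hM G e hL.blk V hL.tp hL.ab γ hL.gam.supp hL.gam.blk hL.und
    have h3 : iz V V γ = (Subgroup.centralizer (V : Set G)).relIndex
        (Subgroup.normalizer (V : Set G) ⊓ stabF γ) := by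
      unfold iz
      rw [Subgroup.inf_relIndex_right]
      rfl
    rw [h3]
    exact h2
  -- stable subgroups
  have hst : ∀ Z : Subgroup G, (∀ t ∈ Tg V γ, ∀ z ∈ Z, t * z * t⁻¹ ∈ Z) →
      ∀ a ∈ Ei V γ, ∀ z ∈ Z.subgroupOf V, a z ∈ Z.subgroupOf V := by
    rintro Z hZ _ ⟨⟨t, htn⟩, ht, rfl⟩ z hz
    rw [Subgroup.mem_subgroupOf]
    exact hZ t (Subgroup.mem_subgroupOf.1 ht) z (Subgroup.mem_subgroupOf.1 hz)
  -- commutators
  have hcm : ∀ a ∈ Ei V γ, ∀ b ∈ Ei V γ, ∀ v : V, a (b v) * (b (a v))⁻¹ ∈ W.subgroupOf V := by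
    intro a ha b hb v
    obtain ⟨⟨s, hsn⟩, hs, hsa⟩ := ha
    obtain ⟨⟨t, htn⟩, ht, htb⟩ := hb
    have ea : ∀ u : V, ((a u : V) : G) = s * (u : G) * s⁻¹ := by
      intro u
      rw [← hsa]
      rfl
    have eb : ∀ u : V, ((b u : V) : G) = t * (u : G) * t⁻¹ := by
      intro u
      rw [← htb]
      rfl
    rw [Subgroup.mem_subgroupOf]
    have h1 := h.cm s (Subgroup.mem_subgroupOf.1 hs) t (Subgroup.mem_subgroupOf.1 ht)
      ((b (a v) : V) : G) (b (a v)).2
    have h2 : s * t * s⁻¹ * t⁻¹ * ((b (a v) : V) : G) * (s * t * s⁻¹ * t⁻¹)⁻¹ *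
        ((b (a v) : V) : G)⁻¹ = ((a (b v) * (b (a v))⁻¹ : V) : G) := by
      rw [Subgroup.coe_mul, Subgroup.coe_inv, ea (b v), eb v, eb (a v), ea v]
      group
    rw [h2] at h1
    exact h1
  by_cases hU : U = ⊥
  · -- `W = 1`
    have hW : W = ⊥ := h.nt hU
    have hEc : ∀ a ∈ Ei V γ, ∀ b ∈ Ei V γ, ∀ v : V, a (b v) = b (a v) := by
      intro a ha b hb v
      have h1 := hcm a ha b hb v
      rw [hW, Subgroup.bot_subgroupOf, Subgroup.mem_bot] at h1
      exact mul_inv_eq_one.1 h1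
    have hne : ∃ v : V, v ≠ 1 := by
      by_contra hc
      push Not at hc
      apply hV
      rw [eq_bot_iff]
      intro x hx
      have h1 := hc ⟨x, hx⟩
      rw [Subgroup.mem_bot]
      exact congrArg Subtype.val h1
    obtain ⟨W', h1⟩ := msu V (Ei V γ) hne hEc
    refine ⟨W', hab, ?_, W', ⊥, h1⟩
    intro a ha b hb v
    rw [hEc a ha b hb v, mul_inv_cancel]
    exact one_mem W'
  · have hUV : U ≤ V := h.uw.trans h.wd
    obtain ⟨U', X', x1, x2, x3, x4, x5, x6⟩ := Pool.Agent.PSS.H44.relEdf edf Fact.out hL.tp.1 hab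
      (Ei V γ) hcop (U.subgroupOf V) (W.subgroupOf V)
      (fun u hu => Subgroup.mem_subgroupOf.2 (h.uw (Subgroup.mem_subgroupOf.1 hu)))
      (ne_bot_of hUV hU) (hst U h.su) (hst W h.sw)
      (by
        rintro _ ⟨⟨t, htn⟩, ht, rfl⟩ u hu hu1 hfix w hw
        have h7 : t * (u : G) * t⁻¹ = u := congrArg Subtype.val hfix
        have h8 := h.fr t (Subgroup.mem_subgroupOf.1 ht) u (Subgroup.mem_subgroupOf.1 hu)
          (fun h => hu1 (Subtype.ext h)) (mul_inv_eq_iff_eq_mul.1 h7)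
        apply Subtype.ext
        show t * (w : G) * t⁻¹ = w
        have h9 : (w : G) * t = t * w :=
          (Subgroup.mem_centralizer_iff.1 h8) w (Subgroup.mem_subgroupOf.1 hw)
        rw [← h9, mul_inv_cancel_right])
    exact ⟨W.subgroupOf V, hab, hcm, U', X',
      { ux := x1
        uw := x2
        nt := x3
        su := x4
        sx := x5
        fr := x6 }⟩

end Pool.Agent.PST.H97
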